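import Pool.Agent.H237R2.CB.Main

/-!
# LIST 3-COLORING on chordal bipartite graphs is solvable in polynomial time

A proper colouring of a chordal bipartite graph by the integers modulo three lifts to a height
function with values in the integers, adjacent vertices having heights that differ by exactly one:
every cycle is a sum of cycles of length four, around which four differences `±1` with sum zero
modulo three have sum zero.  The height functions with values in prescribed residue classes modulo
three, with one parity prescribed, are closed under minima, so that the greatest bounded one is
found by lowering, one unit at a time, all heights that violate a constraint.
-/

namespace Pool.Agent.Results.MP_6659bd_lc.ListColoring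

open Pool.Agent.NPC Pool.Agent.H237R2.CB

/-- **LIST 3-COLORING on chordal bipartite graphs is solvable in polynomial time**: some language
in `P` contains the code of an instance whose graph is chordal bipartite exactly when the instance
is a yes-instance. -/
theorem result :
    ∃ L : Set (List Bool), InP L ∧ ∀ I : ListInstance, ChordalBipartite (gr I.1.length I.2) →
      (bits I ∈ L ↔ ListThreeColorable I) := list_main

end Pool.Agent.Results.MP_6659bd_lc.ListColoring
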