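import Pool.Agent.H237R2.CB.Main

/-!
# 3-PRECOLORING EXTENSION on chordal bipartite graphs is solvable in polynomial time

See `Pool.Agent.Results.MP_6659bd_lc.ListColoring` for the idea.
-/

namespace Pool.Agent.Results.MP_6659bd_lc.PrecoloringExtension

open Pool.Agent.NPC Pool.Agent.H237R2.CB

/-- **3-PRECOLORING EXTENSION on chordal bipartite graphs is solvable in polynomial time**: some
language in `P` contains the code of an instance whose graph is chordal bipartite exactly when the
instance is a yes-instance. -/
theorem result :
    ∃ L : Set (List Bool), InP L ∧ ∀ I : PreInstance, ChordalBipartite (gr I.1.length I.2) →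
      (bits I ∈ L ↔ PrecoloringExtends I) := pre_main

end Pool.Agent.Results.MP_6659bd_lc.PrecoloringExtension
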